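import Pool.Agent.Helper20.Mono.GoalsH

/-! Packet EX2: generic perturbations of heights. -/

namespace Mono

open Finset Filter Topology

theorem eventually_small (a b c : ℝ) (hc : c ≠ 0) :
    ∀ᶠ e in 𝓝[>] (0 : ℝ), a + e * b + e ^ 2 * c ≠ 0 ∧
      (a + e * b + e ^ 2 * c ≤ 0 → a ≤ 0 ∧ (a = 0 → b ≤ 0)) := by
  have hcont : ∀ x y z : ℝ, Tendsto (fun e : ℝ => x + e * y + e ^ 2 * z) (𝓝[>] 0) (𝓝 x) := by
    intro x y z
    have h1 : Continuous (fun e : ℝ => x + e * y + e ^ 2 * z) := by fun_prop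
    have h2 := h1.tendsto 0
    simp only [zero_mul, add_zero, ne_eq, OfNat.ofNat_ne_zero, not_false_eq_true, zero_pow] at h2
    exact h2.mono_left nhdsWithin_le_nhds
  have hpos : ∀ᶠ e in 𝓝[>] (0 : ℝ), 0 < e := eventually_mem_nhdsWithin
  rcases lt_trichotomy a 0 with ha | ha | ha
  · have h1 := (hcont a b c).eventually (gt_mem_nhds ha)
    filter_upwards [h1] with e he
    exact ⟨he.ne, fun _ => ⟨ha.le, fun h => absurd h ha.ne⟩⟩
  · subst ha
    rcases lt_trichotomy b 0 with hb | hb | hb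
    · have h1 := (hcont b c 0).eventually (gt_mem_nhds hb)
      filter_upwards [h1, hpos] with e he hp
      have h2 : 0 + e * b + e ^ 2 * c < 0 := by
        have : 0 + e * b + e ^ 2 * c = e * (b + e * c + e ^ 2 * 0) := by ring
        rw [this]
        exact mul_neg_of_pos_of_neg hp he
      exact ⟨h2.ne, fun _ => ⟨le_rfl, fun _ => hb.le⟩⟩
    · subst hb
      filter_upwards [hpos] with e hp
      refine ⟨?_, fun _ => ⟨le_rfl, fun _ => le_rfl⟩⟩
      have : 0 + e * 0 + e ^ 2 * c = e ^ 2 * c := by ring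
      rw [this]
      exact mul_ne_zero (pow_ne_zero _ hp.ne') hc
    · have h1 := (hcont b c 0).eventually (lt_mem_nhds hb)
      filter_upwards [h1, hpos] with e he hp
      have h2 : 0 < 0 + e * b + e ^ 2 * c := by
        have : 0 + e * b + e ^ 2 * c = e * (b + e * c + e ^ 2 * 0) := by ring
        rw [this]
        exact mul_pos hp he
      exact ⟨h2.ne', fun h => absurd h (not_le.2 h2)⟩
  · have h1 := (hcont a b c).eventually (lt_mem_nhds ha)
    filter_upwards [h1] with e he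
    exact ⟨he.ne', fun h => absurd h (not_le.2 he)⟩

theorem genericHeights : GenericHeights := by
  classical
  intro n R g₀ g₁
  -- pairs
  let P : Finset (Finset (Fin n → ℤ) × (Fin n → ℤ)) :=
    (R.powerset ×ˢ R).filter (fun p => p.2 ∉ p.1)
  let q : Finset (Fin n → ℤ) × (Fin n → ℤ) → Polynomial ℝ := fun p =>
    Polynomial.monomial (Encodable.encode p.2) 1 -
      ∑ u ∈ p.1, Polynomial.monomial (Encodable.encode u) (crd p.1 (toR p.2) u)
  have hq : ∀ p ∈ P, q p ≠ 0 := by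
    intro p hp h0
    have hp2 : p.2 ∉ p.1 := (Finset.mem_filter.1 hp).2
    have h1 : (q p).coeff (Encodable.encode p.2) = 1 := by
      simp only [q, Polynomial.coeff_sub, Polynomial.coeff_monomial, if_true,
        Polynomial.finsetSum_coeff]
      rw [Finset.sum_eq_zero, sub_zero]
      intro u hu
      rw [if_neg]
      intro h
      exact hp2 ((Encodable.encode_injective h) ▸ hu)
    rw [h0] at h1
    simp at h1
  have hprod : ∏ p ∈ P, q p ≠ 0 := Finset.prod_ne_zero_iff.2 hq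
  obtain ⟨t, ht⟩ := Set.Infinite.nonempty
    (Set.Finite.infinite_compl (Polynomial.rootSet_finite (∏ p ∈ P, q p) ℝ))
  have ht' : ∀ p ∈ P, (q p).eval t ≠ 0 := by
    intro p hp h0
    apply ht
    rw [Polynomial.mem_rootSet_of_ne hprod]
    simp only [Polynomial.coe_aeval_eq_eval, Polynomial.eval_prod]
    exact Finset.prod_eq_zero hp h0
  let h : (Fin n → ℤ) → ℝ := fun v => t ^ (Encodable.encode v)
  have hh : ∀ p ∈ P, h p.2 - ∑ u ∈ p.1, crd p.1 (toR p.2) u * h u ≠ 0 := by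
    intro p hp
    have := ht' p hp
    simp only [q, Polynomial.eval_sub, Polynomial.eval_monomial, one_mul,
      Polynomial.eval_finsetSum] at this
    exact this
  have hev : ∀ᶠ e in 𝓝[>] (0 : ℝ), ∀ p ∈ P,
      (g₀ p.2 - ∑ u ∈ p.1, crd p.1 (toR p.2) u * g₀ u) +
        e * (g₁ p.2 - ∑ u ∈ p.1, crd p.1 (toR p.2) u * g₁ u) +
        e ^ 2 * (h p.2 - ∑ u ∈ p.1, crd p.1 (toR p.2) u * h u) ≠ 0 ∧
      ((g₀ p.2 - ∑ u ∈ p.1, crd p.1 (toR p.2) u * g₀ u) +
        e * (g₁ p.2 - ∑ u ∈ p.1, crd p.1 (toR p.2) u * g₁ u) +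
        e ^ 2 * (h p.2 - ∑ u ∈ p.1, crd p.1 (toR p.2) u * h u) ≤ 0 →
        (g₀ p.2 - ∑ u ∈ p.1, crd p.1 (toR p.2) u * g₀ u) ≤ 0 ∧
        ((g₀ p.2 - ∑ u ∈ p.1, crd p.1 (toR p.2) u * g₀ u) = 0 →
          (g₁ p.2 - ∑ u ∈ p.1, crd p.1 (toR p.2) u * g₁ u) ≤ 0)) := by
    rw [Filter.eventually_all_finset]
    intro p hp
    exact eventually_small _ _ _ (hh p hp)
  obtain ⟨e, he⟩ := hev.exists
  have hlin : ∀ (F : Finset (Fin n → ℤ)) (v : Fin n → ℤ),
      (g₀ v + e * g₁ v + e ^ 2 * h v) -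
        ∑ u ∈ F, crd F (toR v) u * (g₀ u + e * g₁ u + e ^ 2 * h u) =
      (g₀ v - ∑ u ∈ F, crd F (toR v) u * g₀ u) +
        e * (g₁ v - ∑ u ∈ F, crd F (toR v) u * g₁ u) +
        e ^ 2 * (h v - ∑ u ∈ F, crd F (toR v) u * h u) := by
    intro F v
    have : ∑ u ∈ F, crd F (toR v) u * (g₀ u + e * g₁ u + e ^ 2 * h u) =
        ∑ u ∈ F, crd F (toR v) u * g₀ u + e * ∑ u ∈ F, crd F (toR v) u * g₁ u +
          e ^ 2 * ∑ u ∈ F, crd F (toR v) u * h u := by
      rw [Finset.mul_sum, Finset.mul_sum, ← Finset.sum_add_distrib, ← Finset.sum_add_distrib]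
      exact Finset.sum_congr rfl fun u _ => by ring
    rw [this]
    ring
  refine ⟨fun v => g₀ v + e * g₁ v + e ^ 2 * h v, ?_, ?_⟩
  · intro F hF _ _ v hv hvF h0
    have hp : (F, v) ∈ P := by
      simp only [P, Finset.mem_filter, Finset.mem_product, Finset.mem_powerset]
      exact ⟨⟨hF, hv⟩, hvF⟩
    apply (he _ hp).1
    have := hlin F v
    rw [← this, h0, sub_self]
  · intro F hF hc hI v hv hle
    by_cases hvF : v ∈ F
    · have key : ∀ w : (Fin n → ℤ) → ℝ, ∑ u ∈ F, crd F (toR v) u * w u = w v := by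
        intro w
        simp [crd_toR hI hvF, hvF]
      rw [key g₀, key g₁]
      exact ⟨le_rfl, fun _ => le_rfl⟩
    · have hp : (F, v) ∈ P := by
        simp only [P, Finset.mem_filter, Finset.mem_product, Finset.mem_powerset]
        exact ⟨⟨hF, hv⟩, hvF⟩
      have h2 := (he _ hp).2 (by
        have := hlin F v
        show _ ≤ _
        rw [← this]
        linarith)
      refine ⟨by linarith [h2.1], fun h3 => ?_⟩
      have := h2.2 (by simp only; linarith)
      simp only at this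
      linarith

end Mono
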